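import Pool.Agent.Lib.MP_d48993_lc.Interfaces

/-!
# Module EMB: Simpson's embedding lemma

For a closed class `S` and a nonempty closed class `B` of Cantor space there is a nonempty closed
class `Q` of Cantor space whose upward closure is `Up S ∪ Up B`.

A binary sequence is read by a finite state machine with the code words `0 y` (write the digit `y`
in the current block) and `1` (close the current block and note its length).  `Q` is the class of
all binary sequences for which the list of lengths of the closed blocks stays in the tree of `S`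
and the current block stays in the tree of `B`.
-/

set_option autoImplicit false

namespace Pool.Agent.Lib.MP_d48993_lc.H46

open MP_8c048d_lc (pre join RecF Sig Clo Cop)

/-! ## Lists -/

theorem pre_length (F : ℕ → ℕ) (k : ℕ) : (pre F k).length = k := by simp [pre]

theorem pre_succ (F : ℕ → ℕ) (k : ℕ) : pre F (k + 1) = pre F k ++ [F k] :=
  MP_8c048d_lc.pre_succ F k

theorem pre_prefix (F : ℕ → ℕ) {j k : ℕ} (h : j ≤ k) : pre F j <+: pre F k := by
  induction h with
  | refl => exact List.prefix_rfl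
  | step _ ih => exact ih.trans (by rw [pre_succ]; exact List.prefix_append _ _)

theorem pre_get (F : ℕ → ℕ) {n k : ℕ} (h : n < k) : (pre F k)[n]? = some (F n) := by
  rw [MP_8c048d_lc.pre_getElem?, if_pos h]

theorem prefix_get {l l' : List ℕ} (h : l <+: l') {n v : ℕ} (hn : l[n]? = some v) :
    l'[n]? = some v := by
  obtain ⟨t, rfl⟩ := h
  have hlt : n < l.length := by
    by_contra hc
    rw [List.getElem?_eq_none (by omega)] at hn
    exact absurd hn (by simp)
  rw [List.getElem?_append_left hlt]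
  exact hn

theorem chain_prefix {ℓ : ℕ → List ℕ} (h : ∀ k, ℓ k <+: ℓ (k + 1)) (j k : ℕ) (hjk : j ≤ k) :
    ℓ j <+: ℓ k := by
  induction hjk with
  | refl => exact List.prefix_rfl
  | step _ ih => exact ih.trans (h _)

/-! ## Limits of growing lists -/

/-- The limit of a recursive growing sequence of strings is computable from the oracle. -/
theorem lim_red (h1 : Red1Statement) (hMu : RedMuStatement) {ℓ : ℕ → (ℕ → ℕ) → List ℕ}
    (hℓ : RecF ℓ) (F : ℕ → ℕ) (hmono : ∀ k, ℓ k F <+: ℓ (k + 1) F)
    (hun : ∀ n, ∃ k, n < (ℓ k F).length) :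
    ∃ f, Red f F ∧ ∀ k, ℓ k F = pre f (ℓ k F).length := by
  have hp : ComputablePred (fun p : (List ℕ × ℕ) × ℕ => p.1.1[p.1.2]? = some p.2) := by
    have a1 : Primrec (fun p : (List ℕ × ℕ) × ℕ => p.1.1[p.1.2]?) :=
      Primrec.list_getElem?.comp (Primrec.fst.comp Primrec.fst) (Primrec.snd.comp Primrec.fst)
    have a2 : Primrec (fun p : (List ℕ × ℕ) × ℕ => some p.2) :=
      Primrec.option_some.comp Primrec.snd
    exact PrimrecPred.computablePred (PrimrecRel.comp Primrec.eq a1 a2)
  have hc : Cop (fun (p : ℕ × ℕ) F => (ℓ p.2.unpair.1 F)[p.1]? = some p.2.unpair.2) := by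
    have b1 : RecF (fun (p : ℕ × ℕ) F => ℓ p.2.unpair.1 F) :=
      hℓ.comp₁ (f := fun p : ℕ × ℕ => p.2.unpair.1)
        (Computable.fst.comp (Computable.unpair.comp Computable.snd))
    have b2 : RecF (fun (p : ℕ × ℕ) (_ : ℕ → ℕ) => p.1) := RecF.of_computable Computable.fst
    have b3 : RecF (fun (p : ℕ × ℕ) (_ : ℕ → ℕ) => p.2.unpair.2) :=
      RecF.of_computable (Computable.snd.comp (Computable.unpair.comp Computable.snd))
    exact Cop.of_recF ((b1.pair b2).pair b3) hp
  have hex : ∀ n : ℕ, ∃ m : ℕ, (ℓ (Nat.unpair m).1 F)[n]? = some (Nat.unpair m).2 := by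
    intro n
    obtain ⟨k, hk⟩ := hun n
    refine ⟨Nat.pair k ((ℓ k F)[n]), ?_⟩
    simp only [Nat.unpair_pair]
    exact List.getElem?_eq_getElem hk
  obtain ⟨f', hf', hf''⟩ := hMu (fun (n m : ℕ) (F : ℕ → ℕ) =>
    (ℓ m.unpair.1 F)[n]? = some m.unpair.2) hc F hex
  refine ⟨fun n => (f' n).unpair.2, ?_, ?_⟩
  · have : RecF (fun (n : ℕ) F => (F n).unpair.2) :=
      (RecF.at (f := fun n : ℕ => n) Computable.id).comp
        (g := fun x : ℕ => x.unpair.2) (Computable.snd.comp Computable.unpair)
    exact Red.trans (h1 (fun n F => (F n).unpair.2) this f') hf'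
  · intro k
    have hch := chain_prefix (ℓ := fun k => ℓ k F) hmono
    refine List.ext_getElem? fun n => ?_
    by_cases hn : n < (ℓ k F).length
    · rw [pre_get _ hn]
      have e1 : (ℓ k F)[n]? = some ((ℓ k F)[n]) := List.getElem?_eq_getElem hn
      have e2 := hf'' n
      have e3 : (ℓ (max k (f' n).unpair.1) F)[n]? = some ((ℓ k F)[n]) :=
        prefix_get (hch _ _ (le_max_left _ _)) e1
      have e4 : (ℓ (max k (f' n).unpair.1) F)[n]? = some (f' n).unpair.2 :=
        prefix_get (hch _ _ (le_max_right _ _)) e2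
      rw [e1, ← e4, e3]
    · rw [List.getElem?_eq_none (by omega), List.getElem?_eq_none (by rw [pre_length]; omega)]

/-! ## The state machine -/

/-- States: lengths of the closed blocks, current block, flag. -/
abbrev St : Type := List ℕ × List ℕ × ℕ

def step (σ : St) (x : ℕ) : St :=
  if σ.2.2 = 0 then (if x = 1 then (σ.1 ++ [σ.2.1.length], [], 0) else (σ.1, σ.2.1, 1))
  else (σ.1, σ.2.1 ++ [x], 0)

def run (σ : St) (l : List ℕ) : St := l.foldl step σ

def st0 : St := ([], [], 0)

theorem run_nil (σ : St) : run σ [] = σ := rfl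

theorem run_cons (σ : St) (x : ℕ) (l : List ℕ) : run σ (x :: l) = run (step σ x) l := rfl

theorem run_append (σ : St) (l l' : List ℕ) : run σ (l ++ l') = run (run σ l) l' :=
  List.foldl_append ..

theorem step_comp : Computable₂ step := by
  have e0 : Primrec (fun p : St × ℕ => p.1.1) := Primrec.fst.comp Primrec.fst
  have e1 : Primrec (fun p : St × ℕ => p.1.2.1) :=
    Primrec.fst.comp (Primrec.snd.comp Primrec.fst)
  have e2 : Primrec (fun p : St × ℕ => p.1.2.2) :=
    Primrec.snd.comp (Primrec.snd.comp Primrec.fst)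
  have e3 : Primrec (fun p : St × ℕ => p.2) := Primrec.snd
  have c0 : PrimrecPred (fun p : St × ℕ => p.1.2.2 = 0) :=
    PrimrecRel.comp Primrec.eq e2 (Primrec.const 0)
  have c1 : PrimrecPred (fun p : St × ℕ => p.2 = 1) :=
    PrimrecRel.comp Primrec.eq e3 (Primrec.const 1)
  have r1 : Primrec (fun p : St × ℕ => (p.1.1 ++ [p.1.2.1.length], ([] : List ℕ), 0)) :=
    Primrec.pair (Primrec.list_concat.comp e0 (Primrec.list_length.comp e1))
      (Primrec.pair (Primrec.const []) (Primrec.const 0))
  have r2 : Primrec (fun p : St × ℕ => (p.1.1, p.1.2.1, 1)) :=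
    Primrec.pair e0 (Primrec.pair e1 (Primrec.const 1))
  have r3 : Primrec (fun p : St × ℕ => (p.1.1, p.1.2.1 ++ [p.2], 0)) :=
    Primrec.pair e0 (Primrec.pair (Primrec.list_concat.comp e1 e3) (Primrec.const 0))
  have : Primrec₂ step := Primrec.ite c0 (Primrec.ite c1 r1 r2) r3
  exact this.to_comp

theorem run_comp : Computable (fun l : List ℕ => run st0 l) := by
  have e0 : Primrec (fun p : St × ℕ => p.1.1) := Primrec.fst.comp Primrec.fst
  have e1 : Primrec (fun p : St × ℕ => p.1.2.1) :=
    Primrec.fst.comp (Primrec.snd.comp Primrec.fst)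
  have e2 : Primrec (fun p : St × ℕ => p.1.2.2) :=
    Primrec.snd.comp (Primrec.snd.comp Primrec.fst)
  have e3 : Primrec (fun p : St × ℕ => p.2) := Primrec.snd
  have c0 : PrimrecPred (fun p : St × ℕ => p.1.2.2 = 0) :=
    PrimrecRel.comp Primrec.eq e2 (Primrec.const 0)
  have c1 : PrimrecPred (fun p : St × ℕ => p.2 = 1) :=
    PrimrecRel.comp Primrec.eq e3 (Primrec.const 1)
  have r1 : Primrec (fun p : St × ℕ => (p.1.1 ++ [p.1.2.1.length], ([] : List ℕ), 0)) :=
    Primrec.pair (Primrec.list_concat.comp e0 (Primrec.list_length.comp e1))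
      (Primrec.pair (Primrec.const []) (Primrec.const 0))
  have r2 : Primrec (fun p : St × ℕ => (p.1.1, p.1.2.1, 1)) :=
    Primrec.pair e0 (Primrec.pair e1 (Primrec.const 1))
  have r3 : Primrec (fun p : St × ℕ => (p.1.1, p.1.2.1 ++ [p.2], 0)) :=
    Primrec.pair e0 (Primrec.pair (Primrec.list_concat.comp e1 e3) (Primrec.const 0))
  have hs : Primrec₂ step := Primrec.ite c0 (Primrec.ite c1 r1 r2) r3
  have : Primrec (fun l : List ℕ => l.foldl (fun s b => step s b) st0) :=
    Primrec.list_foldl (f := fun l : List ℕ => l) (g := fun _ => st0)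
      (h := fun _ p => step p.1 p.2) Primrec.id (Primrec.const st0)
      (hs.comp (Primrec.fst.comp Primrec.snd) (Primrec.snd.comp Primrec.snd)).to₂
  exact this.to_comp

/-! ### The first component grows -/

theorem step_fst (σ : St) (x : ℕ) : σ.1 <+: (step σ x).1 := by
  unfold step
  split_ifs
  · exact List.prefix_append _ _
  · exact List.prefix_rfl
  · exact List.prefix_rfl

/-- If no block is closed, the current block grows. -/
theorem step_snd {σ : St} {x : ℕ} (hσ : σ.2.2 < 2) (h : (step σ x).1.length = σ.1.length) :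
    σ.2.1 <+: (step σ x).2.1 ∧ 2 * (step σ x).2.1.length + (step σ x).2.2 =
      2 * σ.2.1.length + σ.2.2 + 1 := by
  obtain ⟨L, s, b⟩ := σ
  simp only [step] at h ⊢
  simp only at hσ
  split_ifs at h ⊢ with h1 h2
  · simp at h
  · refine ⟨List.prefix_rfl, ?_⟩
    simp only
    omega
  · refine ⟨List.prefix_append _ _, ?_⟩
    simp only [List.length_append, List.length_singleton]
    omega

theorem step_flag (σ : St) (x : ℕ) : (step σ x).2.2 < 2 := by
  unfold step
  split_ifs <;> simp

/-- All states along `l` are in the trees. -/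
def Good (TS TB : List ℕ → Prop) : St → List ℕ → Prop
  | σ, [] => TS σ.1 ∧ TB σ.2.1
  | σ, x :: l => (TS σ.1 ∧ TB σ.2.1) ∧ Good TS TB (step σ x) l

theorem Good.append {TS TB : List ℕ → Prop} {σ : St} {l l' : List ℕ} (h : Good TS TB σ l)
    (h' : Good TS TB (run σ l) l') : Good TS TB σ (l ++ l') := by
  induction l generalizing σ with
  | nil => exact h'
  | cons x l ih => exact ⟨h.1, ih h.2 h'⟩

theorem Good.isPre {TS TB : List ℕ → Prop} {σ : St} {l l' : List ℕ}
    (h : Good TS TB σ (l ++ l')) : TS (run σ l).1 ∧ TB (run σ l).2.1 := by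
  induction l generalizing σ with
  | nil =>
    cases l' with
    | nil => exact h
    | cons x l' => exact h.1
  | cons x l ih => exact ih h.2

/-- Reading a block. -/
theorem good_block {TS TB : List ℕ → Prop} (hTB : PC TB) (L : List ℕ) (hL : TS L) :
    ∀ (t s : List ℕ), TB (s ++ t) →
      Good TS TB (L, s, 0) (t.flatMap fun y => [0, y]) ∧
        run (L, s, 0) (t.flatMap fun y => [0, y]) = (L, s ++ t, 0) := by
  intro t
  induction t with
  | nil =>
    intro s hs
    simp only [List.flatMap_nil, List.append_nil] at hs ⊢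
    exact ⟨⟨hL, hs⟩, rfl⟩
  | cons y t ih =>
    intro s hs
    have hs' : TB ((s ++ [y]) ++ t) := by simpa using hs
    obtain ⟨h1, h2⟩ := ih (s ++ [y]) hs'
    have hsb : TB s := hTB s _ (List.prefix_append s (y :: t)) hs
    have e : step (L, s, 0) 0 = (L, s, 1) := by simp [step]
    have e' : step (L, s, 1) y = (L, s ++ [y], 0) := by simp [step]
    have hfm : (y :: t).flatMap (fun y => [0, y]) = 0 :: y :: t.flatMap (fun y => [0, y]) := by
      simp
    rw [hfm]
    refine ⟨⟨⟨hL, hsb⟩, ?_⟩, ?_⟩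
    · rw [e]
      refine ⟨⟨hL, hsb⟩, ?_⟩
      rw [e']
      exact h1
    · rw [run_cons, run_cons, e, e', h2]
      simp

/-- The word of a block of length `m`. -/
def wd (t : ℕ → List ℕ) (m : ℕ) : List ℕ := (t m).flatMap (fun y => [0, y]) ++ [1]

theorem good_wd {TS TB : List ℕ → Prop} (hTB : PC TB) {t : ℕ → List ℕ} {m : ℕ}
    (ht : (t m).length = m ∧ TB (t m)) (L : List ℕ) (hL : TS L) (hL' : TS (L ++ [m])) :
    Good TS TB (L, [], 0) (wd t m) ∧ run (L, [], 0) (wd t m) = (L ++ [m], [], 0) := by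
  obtain ⟨h1, h2⟩ := good_block hTB L hL (t m) [] (by simpa using ht.2)
  have h0 : TB [] := hTB [] _ (List.nil_prefix) ht.2
  have e : step (L, [] ++ t m, 0) 1 = (L ++ [m], [], 0) := by simp [step, ht.1]
  refine ⟨?_, ?_⟩
  · refine h1.append ?_
    rw [h2]
    refine ⟨⟨hL, by simpa using ht.2⟩, ?_⟩
    rw [e]
    exact ⟨hL', h0⟩
  · rw [wd, run_append, h2, run_cons, run_nil, e]

/-- The concatenation of the words of `f 0, …, f (i - 1)`. -/
def cat (t : ℕ → List ℕ) (f : ℕ → ℕ) (i : ℕ) : List ℕ :=
  Nat.rec (motive := fun _ => List ℕ) [] (fun k r => r ++ wd t (f k)) i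

theorem cat_succ (t : ℕ → List ℕ) (f : ℕ → ℕ) (i : ℕ) :
    cat t f (i + 1) = cat t f i ++ wd t (f i) := rfl

theorem wd_comp {t : ℕ → List ℕ} (ht : Computable t) : Computable (wd t) := by
  have e1 : Primrec (fun l : List ℕ => l.flatMap (fun y => [0, y]) ++ [1]) := by
    have a : Primrec (fun l : List ℕ => l.flatMap (fun y => [0, y])) :=
      Primrec.list_flatMap (f := fun l : List ℕ => l) (g := fun _ y => [0, y]) Primrec.id
        (Primrec.list_cons.comp (Primrec.const 0)
          (Primrec.list_cons.comp Primrec.snd (Primrec.const []))).to₂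
    exact Primrec.list_append.comp a (Primrec.const [1])
  exact e1.to_comp.comp ht

theorem cat_recF {t : ℕ → List ℕ} (ht : Computable t) :
    RecF (fun (i : ℕ) (f : ℕ → ℕ) => cat t f i) := by
  have hg : RecF (fun (_ : Unit) (_ : ℕ → ℕ) => ([] : List ℕ)) :=
    RecF.of_computable (Computable.const [])
  have hh : RecF (fun (p : Unit × ℕ × List ℕ) (f : ℕ → ℕ) => p.2.2 ++ wd t (f p.2.1)) := by
    have a1 : RecF (fun (p : Unit × ℕ × List ℕ) (f : ℕ → ℕ) => f p.2.1) :=
      RecF.at (Computable.fst.comp Computable.snd)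
    have a2 : RecF (fun (p : Unit × ℕ × List ℕ) (_ : ℕ → ℕ) => p.2.2) :=
      RecF.of_computable (Computable.snd.comp Computable.snd)
    exact (a2.pair a1).comp (g := fun x : List ℕ × ℕ => x.1 ++ wd t x.2)
      (Computable.list_append.comp Computable.fst ((wd_comp ht).comp Computable.snd))
  exact (RecF.natRec hg hh).comp₁ (f := fun i : ℕ => ((), i))
    (Computable.pair (Computable.const ()) Computable.id)

theorem good_cat {TS TB : List ℕ → Prop} (hTB : PC TB) {t : ℕ → List ℕ}
    (ht : ∀ m, (t m).length = m ∧ TB (t m)) {f : ℕ → ℕ} (hf : ∀ k, TS (pre f k)) (i : ℕ) :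
    Good TS TB st0 (cat t f i) ∧ run st0 (cat t f i) = (pre f i, [], 0) := by
  induction i with
  | zero =>
    have h0 : TB [] := hTB [] _ (List.nil_prefix) (ht 0).2
    exact ⟨⟨hf 0, h0⟩, rfl⟩
  | succ i ih =>
    obtain ⟨h1, h2⟩ := ih
    have hL' : TS (pre f i ++ [f i]) := by rw [← pre_succ]; exact hf (i + 1)
    obtain ⟨h3, h4⟩ := good_wd hTB (ht (f i)) (pre f i) (hf i) hL'
    rw [cat_succ]
    refine ⟨h1.append ?_, ?_⟩
    · rw [h2]; exact h3
    · rw [run_append, h2, h4, pre_succ]

theorem cat_length (t : ℕ → List ℕ) (f : ℕ → ℕ) (i : ℕ) : i ≤ (cat t f i).length := by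
  induction i with
  | zero => exact Nat.zero_le _
  | succ i ih => rw [cat_succ, List.length_append, wd, List.length_append]; simp; omega

theorem cat_bin {t : ℕ → List ℕ} (ht : ∀ m, ∀ x ∈ t m, x < 2) (f : ℕ → ℕ) (i : ℕ) :
    ∀ x ∈ cat t f i, x < 2 := by
  induction i with
  | zero => intro x hx; simp [cat] at hx
  | succ i ih =>
    intro x hx
    rw [cat_succ, wd] at hx
    simp only [List.mem_append, List.mem_flatMap, List.mem_cons, List.not_mem_nil, or_false] at hx
    rcases hx with hx | ⟨y, hy, rfl | rfl⟩ | rfl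
    · exact ih x hx
    · exact Nat.zero_lt_two
    · exact ht _ _ hy
    · exact Nat.one_lt_two

/-- A computable choice of strings of all lengths. -/
theorem exists_choice {TB : List ℕ → Prop} (hc : ComputablePred TB)
    (hex : ∀ m, ∃ l : List ℕ, l.length = m ∧ TB l) :
    ∃ t : ℕ → List ℕ, Computable t ∧ ∀ m, (t m).length = m ∧ TB (t m) := by
  obtain ⟨hdec, hcomp⟩ := hc
  let r : ℕ → ℕ → Option (List ℕ) := fun m k =>
    (Encodable.decode (α := List ℕ) k).bind fun l =>
      bif (decide (l.length = m) && decide (TB l)) then some l else none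
  have hr : Computable₂ r := by
    have a1 : Computable (fun p : ℕ × ℕ => (Encodable.decode (α := List ℕ) p.2)) :=
      Computable.decode.comp Computable.snd
    have b1 : Computable (fun q : (ℕ × ℕ) × List ℕ => decide (q.2.length = q.1.1)) := by
      have : PrimrecPred (fun q : (ℕ × ℕ) × List ℕ => q.2.length = q.1.1) :=
        PrimrecRel.comp Primrec.eq (Primrec.list_length.comp Primrec.snd)
          (Primrec.fst.comp Primrec.fst)
      obtain ⟨_, h⟩ := this.computablePred
      exact h.of_eq fun q => decide_eq_decide.2 Iff.rfl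
    have b2 : Computable (fun q : (ℕ × ℕ) × List ℕ => decide (TB q.2)) :=
      hcomp.comp Computable.snd
    have b3 : Computable (fun q : (ℕ × ℕ) × List ℕ =>
        (decide (q.2.length = q.1.1) && decide (TB q.2))) :=
      Primrec.and.to_comp.comp b1 b2
    have b4 : Computable (fun q : (ℕ × ℕ) × List ℕ =>
        bif (decide (q.2.length = q.1.1) && decide (TB q.2)) then some q.2 else none) :=
      Computable.cond b3 (Computable.option_some.comp Computable.snd) (Computable.const none)
    exact Computable.option_bind (f := fun p : ℕ × ℕ => Encodable.decode (α := List ℕ) p.2)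
      (g := fun p l => bif (decide (l.length = p.1) && decide (TB l)) then some l else none)
      a1 b4
  have hs : ∀ m k l, r m k = some l → l.length = m ∧ TB l := by
    intro m k l h
    simp only [r, Option.bind_eq_some_iff] at h
    obtain ⟨l', -, h⟩ := h
    cases hb : (decide (l'.length = m) && decide (TB l')) with
    | false => rw [hb] at h; simp at h
    | true =>
      rw [hb] at h
      simp only [cond_true, Option.some.injEq] at h
      subst h
      simpa using hb
  have hd : ∀ m, (Nat.rfindOpt (r m)).Dom := by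
    intro m
    rw [Nat.rfindOpt_dom]
    obtain ⟨l, hl⟩ := hex m
    refine ⟨Encodable.encode l, l, ?_⟩
    simp [r, hl.1, hl.2]
  refine ⟨fun m => (Nat.rfindOpt (r m)).get (hd m), ?_, ?_⟩
  · have := Partrec.rfindOpt hr
    refine this.of_eq fun m => ?_
    exact (Part.some_get (hd m)).symm
  · intro m
    obtain ⟨k, hk⟩ := Nat.rfindOpt_spec (Part.get_mem (hd m))
    exact hs m k _ hk

/-! ## The class `Q` -/

/-- The strings allowed in `Q`. -/
def AllowQ (TS TB : List ℕ → Prop) (l : List ℕ) : Prop :=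
  (∀ x ∈ l, x < 2) ∧ TS (run st0 l).1 ∧ TB (run st0 l).2.1

def Qc (TS TB : List ℕ → Prop) : Set (ℕ → ℕ) := {F | ∀ n, AllowQ TS TB (pre F n)}

theorem closed_Qc {TS TB : List ℕ → Prop} (hS : ComputablePred TS) (hB : ComputablePred TB) :
    ClosedC (Qc TS TB) := by
  have hpre : RecF (fun (p : Unit × ℕ) (F : ℕ → ℕ) => pre F p.2) :=
    RecF.pre.comp₁ (f := fun p : Unit × ℕ => p.2) Computable.snd
  have h2 : ComputablePred (fun l : List ℕ => ∀ x ∈ l, x < 2) := by
    have a : PrimrecPred (fun x : ℕ => x < 2) :=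
      PrimrecRel.comp Primrec.nat_lt Primrec.id (Primrec.const 2)
    exact a.forall_mem_list.computablePred
  have c1 : Cop (fun (p : Unit × ℕ) (F : ℕ → ℕ) => ∀ x ∈ pre F p.2, x < 2) :=
    Cop.of_recF hpre h2
  have c2 : Cop (fun (p : Unit × ℕ) (F : ℕ → ℕ) => TS (run st0 (pre F p.2)).1) :=
    Cop.of_recF (hpre.comp (g := fun l => (run st0 l).1) (Computable.fst.comp run_comp)) hS
  have c3 : Cop (fun (p : Unit × ℕ) (F : ℕ → ℕ) => TB (run st0 (pre F p.2)).2.1) :=
    Cop.of_recF (hpre.comp (g := fun l => (run st0 l).2.1)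
      (Computable.fst.comp (Computable.snd.comp run_comp))) hB
  have c : Cop (fun (p : Unit × ℕ) (F : ℕ → ℕ) => AllowQ TS TB (pre F p.2)) :=
    c1.and (c2.and c3)
  exact Clo.iInter (P := fun (_ : Unit) (n : ℕ) (F : ℕ → ℕ) => AllowQ TS TB (pre F n)) c

theorem bin_Qc (TS TB : List ℕ → Prop) : Bin (Qc TS TB) := by
  intro F hF n
  have := (hF (n + 1)).1 (F n)
  exact this (by rw [pre_succ]; simp)

/-- A binary sequence all of whose initial segments are initial segments of good strings. -/
theorem mem_Qc {TS TB : List ℕ → Prop} {F : ℕ → ℕ}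
    (h : ∀ n, ∃ l, pre F n <+: l ∧ (∀ x ∈ l, x < 2) ∧ Good TS TB st0 l) : F ∈ Qc TS TB := by
  intro n
  obtain ⟨l, ⟨l', rfl⟩, h2, h3⟩ := h n
  refine ⟨fun x hx => h2 x (List.mem_append_left _ hx), ?_⟩
  exact h3.isPre

theorem run_succ (F : ℕ → ℕ) (n : ℕ) :
    run st0 (pre F (n + 1)) = step (run st0 (pre F n)) (F n) := by
  rw [pre_succ, run_append, run_cons, run_nil]

/-- A member of `Q` computes a member of `S` or of `B`. -/
theorem Qc_up (h1 : Red1Statement) (hMu : RedMuStatement) {TS TB : List ℕ → Prop}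
    (hS : PC TS) (hB : PC TB) {F : ℕ → ℕ} (hF : F ∈ Qc TS TB) :
    (∃ f ∈ paths TS, Red f F) ∨ ∃ f ∈ paths TB, Red f F := by
  have hmono : ∀ k, (run st0 (pre F k)).1 <+: (run st0 (pre F (k + 1))).1 := by
    intro k; rw [run_succ]; exact step_fst _ _
  have hflag : ∀ k, (run st0 (pre F k)).2.2 < 2 := by
    intro k
    cases k with
    | zero => exact Nat.zero_lt_two
    | succ k => rw [run_succ]; exact step_flag _ _
  by_cases hun : ∀ n, ∃ k, n < (run st0 (pre F k)).1.length
  · left
    have hr : RecF (fun (k : ℕ) (F : ℕ → ℕ) => (run st0 (pre F k)).1) :=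
      RecF.pre.comp (g := fun l => (run st0 l).1) (Computable.fst.comp run_comp)
    obtain ⟨f, hf, hf'⟩ := lim_red h1 hMu hr F hmono hun
    refine ⟨f, ?_, hf⟩
    intro n
    obtain ⟨k, hk⟩ := hun n
    have e := hf' k
    have hk' := (hF k).2.1
    rw [e] at hk'
    exact hS _ _ (pre_prefix f (le_of_lt hk)) hk'
  · right
    push Not at hun
    obtain ⟨N, hN⟩ := hun
    have hch := chain_prefix (ℓ := fun k => (run st0 (pre F k)).1) hmono
    -- a stage with the maximal number of closed blocks
    obtain ⟨K, hK⟩ : ∃ K, ∀ k, (run st0 (pre F k)).1.length ≤ (run st0 (pre F K)).1.length := by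
      by_contra hcon
      push Not at hcon
      have : ∀ m, ∃ k, m ≤ (run st0 (pre F k)).1.length := by
        intro m
        induction m with
        | zero => exact ⟨0, Nat.zero_le _⟩
        | succ m ih =>
          obtain ⟨k, hk⟩ := ih
          obtain ⟨k', hk'⟩ := hcon k
          exact ⟨k', by omega⟩
      obtain ⟨k, hk⟩ := this (N + 1)
      have := hN k
      omega
    have hconst : ∀ k, (run st0 (pre F (K + k + 1))).1.length =
        (run st0 (pre F (K + k))).1.length := by
      intro k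
      have a1 := (hch _ _ (show K ≤ K + k by omega)).length_le
      have a2 := (hch _ _ (show K + k ≤ K + k + 1 by omega)).length_le
      have a3 := hK (K + k + 1)
      omega
    have hstep : ∀ k, (run st0 (pre F (K + k))).2.1 <+: (run st0 (pre F (K + k + 1))).2.1 ∧
        2 * (run st0 (pre F (K + k + 1))).2.1.length + (run st0 (pre F (K + k + 1))).2.2 =
          2 * (run st0 (pre F (K + k))).2.1.length + (run st0 (pre F (K + k))).2.2 + 1 := by
      intro k
      have := step_snd (σ := run st0 (pre F (K + k))) (x := F (K + k)) (hflag _)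
        (by rw [← run_succ]; exact hconst k)
      rw [← run_succ] at this
      exact this
    have hgrow : ∀ k, k ≤ 2 * (run st0 (pre F (K + k))).2.1.length +
        (run st0 (pre F (K + k))).2.2 := by
      intro k
      induction k with
      | zero => exact Nat.zero_le _
      | succ k ih =>
        have := (hstep k).2
        rw [show K + (k + 1) = K + k + 1 by omega]
        omega
    have hr : RecF (fun (k : ℕ) (F : ℕ → ℕ) => (run st0 (pre F (K + k))).2.1) := by
      have a : Computable (fun k : ℕ => K + k) :=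
        (Primrec.nat_add.comp (Primrec.const K) Primrec.id).to_comp
      exact (RecF.pre.comp₁ (f := fun k : ℕ => K + k) a).comp (g := fun l => (run st0 l).2.1)
        (Computable.fst.comp (Computable.snd.comp run_comp))
    have hun' : ∀ n, ∃ k, n < (run st0 (pre F (K + k))).2.1.length := by
      intro n
      refine ⟨2 * n + 3, ?_⟩
      have a1 := hgrow (2 * n + 3)
      have a2 := hflag (K + (2 * n + 3))
      omega
    obtain ⟨f, hf, hf'⟩ := lim_red h1 hMu hr F (fun k => (hstep k).1) hun'
    refine ⟨f, ?_, hf⟩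
    intro n
    obtain ⟨k, hk⟩ := hun' n
    have e := hf' k
    have hk' := (hF (K + k)).2.2
    rw [e] at hk'
    exact hB _ _ (pre_prefix f (le_of_lt hk)) hk'

/-- A member of `S` computes a member of `Q`. -/
theorem S_up (h1 : Red1Statement) (hMu : RedMuStatement) {TS TB : List ℕ → Prop}
    (hB : PC TB) (hcB : ComputablePred TB) (hbin : ∀ σ, TB σ → ∀ n ∈ σ, n < 2) {g : ℕ → ℕ}
    (hg : g ∈ paths TB) {f : ℕ → ℕ} (hf : f ∈ paths TS) : ∃ F ∈ Qc TS TB, Red F f := by
  obtain ⟨t, ht, ht'⟩ := exists_choice hcB (fun m => ⟨pre g m, pre_length g m, hg m⟩)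
  obtain ⟨F, hF, hF'⟩ := lim_red h1 hMu (cat_recF ht) f
    (fun k => by rw [cat_succ]; exact List.prefix_append _ _)
    (fun n => ⟨n + 1, lt_of_lt_of_le (Nat.lt_succ_self n) (cat_length t f (n + 1))⟩)
  refine ⟨F, mem_Qc fun n => ⟨cat t f n, ?_, ?_, ?_⟩, hF⟩
  · have e := hF' n
    have := pre_prefix F (cat_length t f n)
    rw [← e] at this
    exact this
  · exact cat_bin (fun m x hx => hbin _ (ht' m).2 x hx) f n
  · exact (good_cat hB ht' hf n).1

/-- A member of `B` computes a member of `Q`. -/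
theorem B_up (h1 : Red1Statement) (hMu : RedMuStatement) {TS TB : List ℕ → Prop}
    (hS0 : TS []) (hB : PC TB) (hbin : ∀ σ, TB σ → ∀ n ∈ σ, n < 2) {g : ℕ → ℕ}
    (hg : g ∈ paths TB) : ∃ F ∈ Qc TS TB, Red F g := by
  have hr : RecF (fun (k : ℕ) (g : ℕ → ℕ) => (pre g k).flatMap (fun y => [0, y])) := by
    have a : Primrec (fun l : List ℕ => l.flatMap (fun y => [0, y])) :=
      Primrec.list_flatMap (f := fun l : List ℕ => l) (g := fun _ y => [0, y]) Primrec.id
        (Primrec.list_cons.comp (Primrec.const 0)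
          (Primrec.list_cons.comp Primrec.snd (Primrec.const []))).to₂
    exact RecF.pre.comp a.to_comp
  have hlen : ∀ n, n ≤ ((pre g n).flatMap (fun y => [0, y])).length := by
    intro n
    induction n with
    | zero => exact Nat.zero_le _
    | succ n ih =>
      rw [pre_succ, List.flatMap_append, List.length_append]
      simp only [List.flatMap_cons, List.flatMap_nil, List.append_nil, List.length_cons,
        List.length_nil]
      omega
  obtain ⟨F, hF, hF'⟩ := lim_red h1 hMu hr g
    (fun k => by rw [pre_succ, List.flatMap_append]; exact List.prefix_append _ _)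
    (fun n => ⟨n + 1, lt_of_lt_of_le (Nat.lt_succ_self n) (hlen (n + 1))⟩)
  refine ⟨F, mem_Qc fun n => ⟨(pre g n).flatMap (fun y => [0, y]), ?_, ?_, ?_⟩, hF⟩
  · have e := hF' n
    have := pre_prefix F (hlen n)
    rw [← e] at this
    exact this
  · intro x hx
    simp only [List.mem_flatMap, List.mem_cons, List.not_mem_nil, or_false] at hx
    obtain ⟨y, hy, rfl | rfl⟩ := hx
    · exact Nat.zero_lt_two
    · exact hbin _ (hg n) _ hy
  · exact (good_block hB [] hS0 (pre g n) [] (by rw [List.nil_append]; exact hg n)).1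

/-- Simpson's embedding lemma. -/
theorem emb (h1 : Red1Statement) (hMu : RedMuStatement) (hCls : ClsStatement) :
    EmbStatement := by
  intro S B hS hBne hB hBin
  by_cases hSne : S.Nonempty
  · obtain ⟨-, TS, ⟨hcS, hpS⟩, rfl⟩ := (hCls.1 S).2 ⟨hSne, hS⟩
    obtain ⟨-, TB, ⟨hcB, hpB⟩, hbin, rfl⟩ := (hCls.2 B).2 ⟨hBne, hB, hBin⟩
    obtain ⟨f₀, hf₀⟩ := hSne
    obtain ⟨g₀, hg₀⟩ := hBne
    have hS0 : TS [] := hf₀ 0
    obtain ⟨F₀, hF₀, -⟩ := B_up h1 hMu hS0 hpB hbin hg₀
    refine ⟨Qc TS TB, ⟨F₀, hF₀⟩, closed_Qc hcS hcB, bin_Qc TS TB, ?_⟩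
    ext W
    constructor
    · rintro ⟨F, hF, hFW⟩
      rcases Qc_up h1 hMu hpS hpB hF with ⟨f, hf, hfF⟩ | ⟨f, hf, hfF⟩
      · exact Or.inl ⟨f, hf, hfF.trans hFW⟩
      · exact Or.inr ⟨f, hf, hfF.trans hFW⟩
    · rintro (⟨f, hf, hfW⟩ | ⟨g, hg, hgW⟩)
      · obtain ⟨F, hF, hFf⟩ := S_up h1 hMu hpB hcB hbin hg₀ hf
        exact ⟨F, hF, hFf.trans hfW⟩
      · obtain ⟨F, hF, hFg⟩ := B_up h1 hMu hS0 hpB hbin hg
        exact ⟨F, hF, hFg.trans hgW⟩
  · refine ⟨B, hBne, hB, hBin, ?_⟩
    rw [Set.not_nonempty_iff_eq_empty] at hSne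
    subst hSne
    ext W
    simp [Up]

end Pool.Agent.Lib.MP_d48993_lc.H46
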